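import Pool.Agent.Q148.TW.Fin

/-!
# Even numbers as differences of a prime and an almost prime: few exceptions, short shifts, all windows

Every fixed even `h` is (infinitely often) a prime minus a number without prime factors up to `x ^ u`, `u < 1 / 4`, and
the other way round; `u = 1 / 2` is the problem itself. For every `u < 1 / 2`, `0 < θ ≤ 1` and `ε > 0`: all even `h ≤ V`
with at most `C V ^ (max (1 - θ) (4 u - θ) + ε)` exceptions have, for all `x` in `[V ^ θ, V]` at the same time, at least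
`δ 𝔖(h) x / log ^ 2 V` primes `p` in `(x / 4, x)` such that all prime factors of `p + h` are larger than `V ^ u`, and as
many with all prime factors of `|p - h|` larger than `V ^ u` (so there are fewer than `1 / u` of them). For
`1 / 3 ≤ u < 1 / 2`: all even `h ≤ X` with at most `C X ^ (4 u - 1 + ε)` exceptions are `m - p` and `p' - m'`, with primes
`p, p' ≤ 8 X` and with `m`, `m'` prime or the product of two primes larger than `X ^ u`.
-/

set_option autoImplicit false

open Finset Filter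

namespace Pool.Agent.Results.MP_70e905_nt.ShortShiftsFewExceptions

/-- the variable part of the singular series of the twin prime problem with difference `h` -/
noncomputable def sing (h : ℕ) : ℝ :=
  ∏ p ∈ h.primeFactors.erase 2, (((p : ℝ) - 1) / ((p : ℝ) - 2))

/-- `m` is not `0`, its prime factors are larger than `V ^ u`, and (with multiplicity) there are fewer than `1 / u` of
them. -/
def Rough (V : ℕ) (u : ℝ) (m : ℕ) : Prop :=
  m ≠ 0 ∧ (∀ q : ℕ, q.Prime → q ∣ m → (V : ℝ) ^ u < q) ∧ (m.primeFactorsList.length : ℝ) * u < 1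

open Classical in
/-- the number of the primes `p ∈ (x / 4, x)`, `p ≤ V`, such that `p + h` is rough -/
noncomputable def up (V : ℕ) (u x : ℝ) (h : ℕ) : ℕ :=
  ((Icc 1 V).filter (fun p : ℕ => p.Prime ∧ x / 4 < p ∧ (p : ℝ) < x ∧ Rough V u (p + h))).card

open Classical in
/-- the number of the primes `p ∈ (x / 4, x)`, `p ≤ V`, such that `|p - h|` is rough -/
noncomputable def down (V : ℕ) (u x : ℝ) (h : ℕ) : ℕ :=
  ((Icc 1 V).filter (fun p : ℕ => p.Prime ∧ x / 4 < p ∧ (p : ℝ) < x ∧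
    Rough V u ((p : ℤ) - h).natAbs)).card

/-- `m` is a prime or the product of two primes larger than `w` -/
def PrimeOrTwo (w : ℝ) (m : ℕ) : Prop :=
  m.Prime ∨ ∃ q r : ℕ, q.Prime ∧ r.Prime ∧ m = q * r ∧ w < q ∧ w < r

lemma pow_le_prod (a : ℝ) (ha : 0 ≤ a) : ∀ l : List ℕ, (∀ q ∈ l, a ≤ (q : ℝ)) → a ^ l.length ≤ (l.prod : ℝ)
  | [], _ => by simp
  | q :: l, h => by
    have h1 := pow_le_prod a ha l (fun q' hq' => h q' (List.mem_cons_of_mem _ hq'))
    have h2 := h q List.mem_cons_self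
    rw [List.length_cons, List.prod_cons, pow_succ', Nat.cast_mul]
    exact mul_le_mul h2 h1 (by positivity) (ha.trans h2)

lemma few (u : ℝ) (V m : ℕ) (hV : 2 ≤ V) (hm : m ≠ 0) (hmV : m ≤ 2 * V)
    (h : ∀ q : ℕ, q.Prime → q ∣ m → 3 * (V : ℝ) ^ u ≤ q) : (m.primeFactorsList.length : ℝ) * u < 1 := by
  have hVr : (1 : ℝ) < V := by exact_mod_cast hV
  rcases Nat.eq_zero_or_pos m.primeFactorsList.length with hk | hk
  · rw [hk]; simp
  have h1 := pow_le_prod (3 * (V : ℝ) ^ u) (by positivity) m.primeFactorsList (fun q hq =>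
    (h q (Nat.prime_of_mem_primeFactorsList hq) (Nat.dvd_of_mem_primeFactorsList hq)))
  have h2 : (m.primeFactorsList.prod : ℝ) = m := by exact_mod_cast Nat.prod_primeFactorsList hm
  rw [h2] at h1
  have h3 : (m : ℝ) ≤ 2 * V := by exact_mod_cast hmV
  have h3' : (3 : ℝ) ≤ 3 ^ m.primeFactorsList.length := by
    calc (3 : ℝ) = 3 ^ 1 := by norm_num
      _ ≤ _ := pow_le_pow_right₀ (by norm_num) hk
  have h4 : (V : ℝ) ^ (u * m.primeFactorsList.length) < (V : ℝ) ^ (1 : ℝ) := by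
    rw [Real.rpow_mul (by linarith), Real.rpow_natCast, Real.rpow_one]
    rw [mul_pow] at h1
    have h5 : (0 : ℝ) ≤ ((V : ℝ) ^ u) ^ m.primeFactorsList.length := by positivity
    nlinarith
  have h5 := (Real.rpow_lt_rpow_left_iff hVr).1 h4
  linarith

lemma pow_two_of (x : ℝ) (n : ℕ) (hn : Even n) (h : Pool.Agent.Y882.al x n ≠ 0) : ∃ k : ℕ, n = 2 ^ k := by
  have h1 : ArithmeticFunction.vonMangoldt n ≠ 0 := by
    intro h0
    apply h
    unfold Pool.Agent.Y882.al
    rw [h0, zero_mul]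
  rw [ArithmeticFunction.vonMangoldt_ne_zero_iff] at h1
  obtain ⟨p, k, hp, hk, rfl⟩ := h1
  have hp' : p.Prime := hp.nat_prime
  have h2 : 2 ∣ p := Nat.prime_two.dvd_of_dvd_pow hn.two_dvd
  have h3 := (Nat.prime_dvd_prime_iff_eq Nat.prime_two hp').1 h2
  exact ⟨k, by rw [← h3]⟩

lemma cnt_up (V : ℕ) (hV : 2 ≤ V) (u x y : ℝ) (h : ℕ) (hhV : h ≤ V) (hxV : x ≤ V) (hyx : y ≤ x) (hxy : x ≤ 2 * y) :
    Pool.Agent.Q148.TW.cnt true y (3 * (V : ℝ) ^ u) h ≤ up V u x h := by
  classical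
  unfold Pool.Agent.Q148.TW.cnt up
  apply card_le_card
  intro p hp
  rw [mem_filter, mem_Icc] at hp ⊢
  obtain ⟨⟨h1, h2⟩, h3, h4, h5, h6⟩ := hp
  have hpV : p ≤ V := by
    have : (p : ℝ) ≤ V := by linarith
    exact_mod_cast this
  have hs : Pool.Agent.Q148.TW.sh true h p = p + h := by
    unfold Pool.Agent.Q148.TW.sh
    simp [add_comm]
  rw [hs] at h6
  refine ⟨⟨h1, hpV⟩, h3, by linarith, by linarith, by omega, ?_, few u V (p + h) hV (by omega) (by omega) h6⟩
  intro q hq hqn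
  have h7 := h6 q hq hqn
  have : (0 : ℝ) < (V : ℝ) ^ u := by
    have : (0 : ℝ) < V := by exact_mod_cast (by omega : 0 < V)
    positivity
  linarith

lemma cnt_down (V : ℕ) (hV : 2 ≤ V) (u x y : ℝ) (h : ℕ) (hhV : h ≤ V) (hh : Even h) (hxV : x ≤ V) (hyx : y ≤ x)
    (hxy : x ≤ 2 * y) (hy8 : 8 ≤ y) :
    Pool.Agent.Q148.TW.cnt false y (3 * (V : ℝ) ^ u) h ≤ down V u x h := by
  classical
  unfold Pool.Agent.Q148.TW.cnt down
  apply card_le_card
  intro p hp
  rw [mem_filter, mem_Icc] at hp ⊢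
  obtain ⟨⟨h1, h2⟩, h3, h4, h5, h6⟩ := hp
  have hpV : p ≤ V := by
    have : (p : ℝ) ≤ V := by linarith
    exact_mod_cast this
  have hs : Pool.Agent.Q148.TW.sh false h p = ((p : ℤ) - h).natAbs := by
    unfold Pool.Agent.Q148.TW.sh
    simp
  rw [hs] at h6
  have hp4 : 4 < p := by
    have : (4 : ℝ) < p := by linarith
    exact_mod_cast this
  have hne : ((p : ℤ) - h).natAbs ≠ 0 := by
    intro h0
    have h7 : p = h := by omega
    rcases h3.eq_two_or_odd' with h8 | h8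
    · omega
    · rw [h7] at h8
      exact (Nat.not_even_iff_odd.2 h8) hh
  refine ⟨⟨h1, hpV⟩, h3, by linarith, by linarith, hne, ?_, few u V _ hV hne (by omega) h6⟩
  intro q hq hqn
  have h7 := h6 q hq hqn
  have : (0 : ℝ) < (V : ℝ) ^ u := by
    have : (0 : ℝ) < V := by exact_mod_cast (by omega : 0 < V)
    positivity
  linarith

open Classical in
theorem main (θ u ε : ℝ) (hθ0 : 0 < θ) (hθ1 : θ ≤ 1) (hu : 0 < u) (hu2 : u < 1 / 2) (hε : 0 < ε) :
    ∃ δ C : ℝ, 0 < δ ∧ 0 < C ∧ ∀ V : ℕ, 1 ≤ V →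
      (((Icc 1 V).filter (fun h => Even h ∧ ∃ x : ℝ, (V : ℝ) ^ θ ≤ x ∧ x ≤ V ∧
        ((up V u x h : ℝ) < δ * sing h * (x / Real.log V ^ 2) ∨
          (down V u x h : ℝ) < δ * sing h * (x / Real.log V ^ 2)))).card : ℝ) ≤
      C * (V : ℝ) ^ (max (1 - θ) (4 * u - θ) + ε) := by
  set η : ℝ := min (ε / 4) (θ / 2) with hη
  have hη0 : 0 < η := lt_min (by linarith) (by linarith)
  have hηε : η ≤ ε / 4 := min_le_left _ _
  have hηθ : η ≤ θ / 2 := min_le_right _ _
  obtain ⟨δ1, hδ1, Y1, H1⟩ := Pool.Agent.Q148.TW.dyadic true (θ - η) u (ε / 4) (by linarith) (by linarith) hu hu2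
    (by linarith)
  obtain ⟨δ2, hδ2, Y2, H2⟩ := Pool.Agent.Q148.TW.dyadic false (θ - η) u (ε / 4) (by linarith) (by linarith) hu hu2
    (by linarith)
  set δ : ℝ := min δ1 δ2 / 2 with hδ
  have hδ0 : 0 < δ := by
    have := lt_min hδ1 hδ2
    linarith
  have hδ1' : δ ≤ δ1 / 2 := by
    have := min_le_left δ1 δ2
    linarith
  have hδ2' : δ ≤ δ2 / 2 := by
    have := min_le_right δ1 δ2
    linarith
  have ev : ∀ᶠ Y : ℕ in atTop, (2 : ℝ) ≤ (Y : ℝ) ^ η :=
    tendsto_natCast_atTop_atTop.eventually ((tendsto_rpow_atTop hη0).eventually_ge_atTop _)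
  have ev' : ∀ᶠ Y : ℕ in atTop, (8 : ℝ) ≤ (Y : ℝ) ^ (θ - η) :=
    tendsto_natCast_atTop_atTop.eventually ((tendsto_rpow_atTop (by linarith)).eventually_ge_atTop _)
  have ev'' := Pool.Agent.Y882.polylog 16 1 (ε / 4) (by linarith)
  obtain ⟨Y3, HY3⟩ := eventually_atTop.1 (ev.and (ev'.and ev''))
  set E : ℝ := max (1 - θ) (4 * u - θ) + ε with hE
  have hEpos : 0 < E := by
    have := le_max_left (1 - θ) (4 * u - θ)
    rw [hE]
    linarith
  set V0 : ℕ := max (max (max Y1 Y2) Y3) 4 with hV0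
  refine ⟨δ, (V0 : ℝ) + 1, hδ0, by positivity, ?_⟩
  intro V hV1
  have hVr1 : (1 : ℝ) ≤ V := by exact_mod_cast hV1
  have hVE : (1 : ℝ) ≤ (V : ℝ) ^ E := Real.one_le_rpow hVr1 hEpos.le
  rcases lt_or_ge V V0 with hVs | hVb
  · have h1 : (((Icc 1 V).filter (fun h => Even h ∧ ∃ x : ℝ, (V : ℝ) ^ θ ≤ x ∧ x ≤ V ∧
        ((up V u x h : ℝ) < δ * sing h * (x / Real.log V ^ 2) ∨
          (down V u x h : ℝ) < δ * sing h * (x / Real.log V ^ 2)))).card : ℝ) ≤ V0 + 1 := by
      have h2 : ((Icc 1 V).filter (fun h => Even h ∧ ∃ x : ℝ, (V : ℝ) ^ θ ≤ x ∧ x ≤ V ∧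
        ((up V u x h : ℝ) < δ * sing h * (x / Real.log V ^ 2) ∨
          (down V u x h : ℝ) < δ * sing h * (x / Real.log V ^ 2)))).card ≤ V := by
        refine (card_filter_le _ _).trans ?_
        rw [Nat.card_Icc]
        omega
      have h3 : (V : ℝ) ≤ V0 := by exact_mod_cast hVs.le
      have h4 : (((Icc 1 V).filter (fun h => Even h ∧ ∃ x : ℝ, (V : ℝ) ^ θ ≤ x ∧ x ≤ V ∧
        ((up V u x h : ℝ) < δ * sing h * (x / Real.log V ^ 2) ∨
          (down V u x h : ℝ) < δ * sing h * (x / Real.log V ^ 2)))).card : ℝ) ≤ V := by exact_mod_cast h2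
      linarith
    refine h1.trans ?_
    exact le_mul_of_one_le_right (by positivity) hVE
  have hV4 : 4 ≤ V := (le_max_right _ _).trans hVb
  have hVY1 : Y1 ≤ V := ((le_max_left _ _).trans ((le_max_left _ _).trans (le_max_left _ _))).trans hVb
  have hVY2 : Y2 ≤ V := ((le_max_right _ _).trans ((le_max_left _ _).trans (le_max_left _ _))).trans hVb
  have hVY3 : Y3 ≤ V := ((le_max_right _ _).trans (le_max_left _ _)).trans hVb
  obtain ⟨g1, g2, g3⟩ := HY3 V hVY3
  have hVr : (4 : ℝ) ≤ V := by exact_mod_cast hV4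
  have hVp : (0 : ℝ) < V := by linarith
  have hlV : 0 < Real.log V := Real.log_pos (by linarith)
  have hlV1 : 1 ≤ Real.log V := by
    rw [Real.le_log_iff_exp_le hVp]
    have := Real.exp_one_lt_d9
    linarith
  set K : ℕ := Nat.log 2 V with hK
  -- the bad sets at the dyadic points
  set y : ℕ → ℝ := fun j => (V : ℝ) / 2 ^ j with hy
  set B1 : ℕ → Finset ℕ := fun j => (Icc 1 V).filter (fun h => Even h ∧ (V : ℝ) ^ (θ - η) ≤ y j ∧
    (Pool.Agent.Q148.TW.cnt true (y j) (3 * (V : ℝ) ^ u) h : ℝ) <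
      δ1 * y j / Real.log V ^ 2 * Pool.Agent.Y882.sgs h) with hB1
  set B2 : ℕ → Finset ℕ := fun j => (Icc 1 V).filter (fun h => Even h ∧ (V : ℝ) ^ (θ - η) ≤ y j ∧
    Pool.Agent.Y882.al (y j) h = 0 ∧ (Pool.Agent.Q148.TW.cnt false (y j) (3 * (V : ℝ) ^ u) h : ℝ) <
      δ2 * y j / Real.log V ^ 2 * Pool.Agent.Y882.sgs h) with hB2
  set P2 : Finset ℕ := (range (K + 1)).image (fun k => 2 ^ k) with hP2
  set W : ℝ := (V : ℝ) ^ (max (1 - (θ - η)) (4 * u - (θ - η)) + ε / 4) with hW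
  have hW1 : 1 ≤ W := by
    apply Real.one_le_rpow hVr1
    have := le_max_left (1 - (θ - η)) (4 * u - (θ - η))
    linarith
  have hyV : ∀ j, y j ≤ V := by
    intro j
    simp only [hy]
    apply div_le_self hVp.le
    exact one_le_pow₀ (by norm_num)
  have c1 : ∀ j, ((B1 j).card : ℝ) ≤ W := by
    intro j
    by_cases hj : (V : ℝ) ^ (θ - η) ≤ y j
    · apply H1 V hVY1 (y j) hj (hyV j) (B1 j)
      intro n hn
      rw [hB1] at hn
      simp only [mem_filter, mem_Icc] at hn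
      obtain ⟨⟨h1, h2⟩, h3, h4, h5⟩ := hn
      exact ⟨h1, by omega, h3, by simp, h5⟩
    · have : B1 j = ∅ := by
        rw [hB1]
        simp only [filter_eq_empty_iff]
        rintro n - ⟨-, h, -⟩
        exact hj h
      rw [this]
      simp only [card_empty, Nat.cast_zero]
      linarith
  have c2 : ∀ j, ((B2 j).card : ℝ) ≤ W := by
    intro j
    by_cases hj : (V : ℝ) ^ (θ - η) ≤ y j
    · apply H2 V hVY2 (y j) hj (hyV j) (B2 j)
      intro n hn
      rw [hB2] at hn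
      simp only [mem_filter, mem_Icc] at hn
      obtain ⟨⟨h1, h2⟩, h3, h4, h5, h6⟩ := hn
      exact ⟨h1, by omega, h3, fun _ => h5, h6⟩
    · have : B2 j = ∅ := by
        rw [hB2]
        simp only [filter_eq_empty_iff]
        rintro n - ⟨-, h, -⟩
        exact hj h
      rw [this]
      simp only [card_empty, Nat.cast_zero]
      linarith
  have c3 : (P2.card : ℝ) ≤ K + 1 := by
    have : P2.card ≤ K + 1 := by
      rw [hP2]
      exact card_image_le.trans (by simp)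
    exact_mod_cast this
  have hsub : ((Icc 1 V).filter (fun h => Even h ∧ ∃ x : ℝ, (V : ℝ) ^ θ ≤ x ∧ x ≤ V ∧
        ((up V u x h : ℝ) < δ * sing h * (x / Real.log V ^ 2) ∨
          (down V u x h : ℝ) < δ * sing h * (x / Real.log V ^ 2)))) ⊆
      (range (K + 2)).biUnion B1 ∪ ((range (K + 2)).biUnion B2 ∪ P2) := by
    intro h hh
    rw [mem_filter, mem_Icc] at hh
    obtain ⟨⟨h1, h2⟩, hev, x, hx1, hx2, hx3⟩ := hh
    have hVθ : (1 : ℝ) ≤ (V : ℝ) ^ θ := Real.one_le_rpow hVr1 hθ0.le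
    have hx0 : 0 < x := by linarith
    have hVx : 1 ≤ (V : ℝ) / x := by
      rw [le_div_iff₀ hx0]
      linarith
    obtain ⟨n, hn1, hn2⟩ := exists_nat_pow_near hVx (by norm_num : (1 : ℝ) < 2)
    have hnK : n ≤ K := by
      rw [hK]
      apply (Nat.le_log_iff_pow_le (by norm_num) (by omega)).2
      have h3 : (2 : ℝ) ^ n ≤ V := by
        refine hn1.trans ?_
        exact div_le_self hVp.le (by linarith)
      exact_mod_cast h3
    have hyx : y (n + 1) ≤ x := by
      simp only [hy]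
      rw [div_lt_iff₀ hx0] at hn2
      rw [div_le_iff₀ (by positivity)]
      linarith
    have hxy : x ≤ 2 * y (n + 1) := by
      simp only [hy]
      rw [le_div_iff₀ hx0] at hn1
      rw [mul_div_assoc', le_div_iff₀ (by positivity), pow_succ]
      linarith
    have hyθ : (V : ℝ) ^ (θ - η) ≤ y (n + 1) := by
      have h4 : (V : ℝ) ^ (θ - η) * (V : ℝ) ^ η = (V : ℝ) ^ θ := by
        rw [← Real.rpow_add hVp]
        congr 1
        ring
      have h5 : (0 : ℝ) < (V : ℝ) ^ (θ - η) := by positivity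
      have h6 : (V : ℝ) ^ (θ - η) * 2 ≤ (V : ℝ) ^ θ := by
        rw [← h4]
        exact mul_le_mul_of_nonneg_left g1 h5.le
      linarith
    have hy8 : 8 ≤ y (n + 1) := g2.trans hyθ
    have hsg : Pool.Agent.Y882.sgs h = sing h := rfl
    have hs1 : 1 ≤ sing h := by
      rw [← hsg]
      exact Pool.Agent.Y882.one_le_sgs h
    have hcmp : ∀ δ' : ℝ, 0 < δ' → δ ≤ δ' / 2 →
        δ * sing h * (x / Real.log V ^ 2) ≤ δ' * y (n + 1) / Real.log V ^ 2 * sing h := by
      intro δ' hδ'0 hδ'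
      calc δ * sing h * (x / Real.log V ^ 2) ≤ δ' / 2 * sing h * ((2 * y (n + 1)) / Real.log V ^ 2) := by
            apply mul_le_mul
            · exact mul_le_mul_of_nonneg_right hδ' (by linarith)
            · exact div_le_div_of_nonneg_right hxy (by positivity)
            · positivity
            · have : 0 ≤ sing h := by linarith
              positivity
        _ = _ := by ring
    rw [mem_union, mem_union, mem_biUnion, mem_biUnion]
    rcases hx3 with hx3 | hx3
    · left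
      refine ⟨n + 1, mem_range.2 (by omega), ?_⟩
      rw [hB1]
      simp only [mem_filter, mem_Icc]
      refine ⟨⟨h1, h2⟩, hev, hyθ, ?_⟩
      have h4 := cnt_up V (by omega) u x (y (n + 1)) h h2 hx2 hyx hxy
      have h4' : (Pool.Agent.Q148.TW.cnt true (y (n + 1)) (3 * (V : ℝ) ^ u) h : ℝ) ≤ up V u x h := by
        exact_mod_cast h4
      rw [hsg]
      exact h4'.trans_lt (hx3.trans_le (hcmp δ1 hδ1 hδ1'))
    · right
      by_cases hal : Pool.Agent.Y882.al (y (n + 1)) h = 0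
      · left
        refine ⟨n + 1, mem_range.2 (by omega), ?_⟩
        rw [hB2]
        simp only [mem_filter, mem_Icc]
        refine ⟨⟨h1, h2⟩, hev, hyθ, hal, ?_⟩
        have h4 := cnt_down V (by omega) u x (y (n + 1)) h h2 hev hx2 hyx hxy hy8
        have h4' : (Pool.Agent.Q148.TW.cnt false (y (n + 1)) (3 * (V : ℝ) ^ u) h : ℝ) ≤ down V u x h := by
          exact_mod_cast h4
        rw [hsg]
        exact h4'.trans_lt (hx3.trans_le (hcmp δ2 hδ2 hδ2'))
      · right
        obtain ⟨k, hk⟩ := pow_two_of _ h hev hal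
        rw [hP2, mem_image]
        refine ⟨k, ?_, hk.symm⟩
        rw [mem_range, Nat.lt_succ_iff, hK]
        apply (Nat.le_log_iff_pow_le (by norm_num) (by omega)).2
        omega
  have hcard : (((Icc 1 V).filter (fun h => Even h ∧ ∃ x : ℝ, (V : ℝ) ^ θ ≤ x ∧ x ≤ V ∧
        ((up V u x h : ℝ) < δ * sing h * (x / Real.log V ^ 2) ∨
          (down V u x h : ℝ) < δ * sing h * (x / Real.log V ^ 2)))).card : ℝ) ≤
      (K + 2) * W + ((K + 2) * W + (K + 1)) := by
    have h1 := (card_le_card hsub).trans ((card_union_le _ _).trans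
      (add_le_add le_rfl (card_union_le _ _)))
    have h2 : ∀ B : ℕ → Finset ℕ, (∀ j, ((B j).card : ℝ) ≤ W) →
        (((range (K + 2)).biUnion B).card : ℝ) ≤ (K + 2) * W := by
      intro B hB
      have h3 : (((range (K + 2)).biUnion B).card : ℝ) ≤ ∑ j ∈ range (K + 2), ((B j).card : ℝ) := by
        exact_mod_cast card_biUnion_le
      refine h3.trans ((sum_le_sum fun j _ => hB j).trans ?_)
      rw [sum_const, nsmul_eq_mul, card_range]
      push_cast
      exact le_rfl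
    have h4 := h2 B1 c1
    have h5 := h2 B2 c2
    have h6 : (((Icc 1 V).filter (fun h => Even h ∧ ∃ x : ℝ, (V : ℝ) ^ θ ≤ x ∧ x ≤ V ∧
        ((up V u x h : ℝ) < δ * sing h * (x / Real.log V ^ 2) ∨
          (down V u x h : ℝ) < δ * sing h * (x / Real.log V ^ 2)))).card : ℝ) ≤
        ((range (K + 2)).biUnion B1).card + (((range (K + 2)).biUnion B2).card + P2.card) := by
      exact_mod_cast h1
    linarith
  have hKl : (K : ℝ) ≤ 2 * Real.log V := by
    have h1 : ((2 : ℕ) : ℝ) ^ K ≤ V := by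
      exact_mod_cast Nat.pow_log_le_self 2 (by omega : V ≠ 0)
    have h2 := Real.log_le_log (by positivity) h1
    rw [Real.log_pow] at h2
    have h3 := Real.log_two_gt_d9
    push_cast at h2
    nlinarith [Nat.cast_nonneg (α := ℝ) K]
  have hfin : (K + 2 : ℝ) * W + ((K + 2) * W + (K + 1)) ≤ (V : ℝ) ^ E := by
    have h1 : (K + 2 : ℝ) * W + ((K + 2) * W + (K + 1)) ≤ 16 * Real.log V * W := by
      have h2 : (K : ℝ) + 1 ≤ (K + 2) * W := by nlinarith [Nat.cast_nonneg (α := ℝ) K]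
      have h3 : (K : ℝ) + 2 ≤ 4 * Real.log V := by linarith
      have h4 : (K + 2 : ℝ) * W ≤ 4 * Real.log V * W := mul_le_mul_of_nonneg_right h3 (by linarith)
      have h5 : 0 ≤ Real.log V * W := by
        have : 0 ≤ W := by linarith
        positivity
      linarith
    refine h1.trans ?_
    rw [pow_one] at g3
    calc 16 * Real.log V * W ≤ (V : ℝ) ^ (ε / 4) * W := mul_le_mul_of_nonneg_right g3 (by linarith)
      _ = (V : ℝ) ^ (ε / 4 + (max (1 - (θ - η)) (4 * u - (θ - η)) + ε / 4)) := by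
          rw [hW, ← Real.rpow_add hVp]
      _ ≤ (V : ℝ) ^ E := by
          apply Real.rpow_le_rpow_of_exponent_le hVr1
          have e1 : 1 - (θ - η) ≤ max (1 - θ) (4 * u - θ) + η := by
            have := le_max_left (1 - θ) (4 * u - θ)
            linarith
          have e2 : 4 * u - (θ - η) ≤ max (1 - θ) (4 * u - θ) + η := by
            have := le_max_right (1 - θ) (4 * u - θ)
            linarith
          have := max_le e1 e2
          rw [hE]
          linarith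
  refine (hcard.trans hfin).trans ?_
  have : (0 : ℝ) ≤ V0 := by positivity
  nlinarith

/-- a rough number is a prime or a product of two large primes -/
lemma two_of (V : ℕ) (u : ℝ) (hu : 1 / 3 ≤ u) (m : ℕ) (hm2 : m ≠ 1) (h : Rough V u m) :
    PrimeOrTwo ((V : ℝ) ^ u) m := by
  obtain ⟨hm0, hrough, hlen⟩ := h
  have hlen2 : m.primeFactorsList.length < 3 := by
    have h5 : (m.primeFactorsList.length : ℝ) < 3 := by
      by_contra h6
      push Not at h6
      nlinarith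
    exact_mod_cast h5
  have hprod := Nat.prod_primeFactorsList hm0
  have hpr : ∀ q ∈ m.primeFactorsList, q.Prime := fun q hq => Nat.prime_of_mem_primeFactorsList hq
  have hdv : ∀ q ∈ m.primeFactorsList, (V : ℝ) ^ u < q := fun q hq =>
    hrough q (hpr q hq) (Nat.dvd_of_mem_primeFactorsList hq)
  generalize hl : m.primeFactorsList = l at hprod hpr hdv hlen2
  match l, hprod, hpr, hdv, hlen2 with
  | [], hprod, _, _, _ =>
    exfalso
    rw [List.prod_nil] at hprod
    omega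
  | [q], hprod, hpr, _, _ =>
    left
    rw [List.prod_singleton] at hprod
    rw [← hprod]
    exact hpr q List.mem_cons_self
  | [q, r], hprod, hpr, hdv, _ =>
    right
    rw [List.prod_cons, List.prod_singleton] at hprod
    exact ⟨q, r, hpr q (by simp), hpr r (by simp), hprod.symm, hdv q (by simp), hdv r (by simp)⟩
  | _ :: _ :: _ :: _, _, _, _, h =>
    exfalso
    simp only [List.length_cons] at h
    omega

open Classical in
theorem two (u ε : ℝ) (hu : 1 / 3 ≤ u) (hu2 : u < 1 / 2) (hε : 0 < ε) : ∃ C : ℝ, 0 < C ∧ ∀ X : ℕ, 1 ≤ X →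
      (((Icc 1 X).filter (fun h => Even h ∧ ¬ ((∃ p m : ℕ, p.Prime ∧ p ≤ 8 * X ∧
          PrimeOrTwo ((X : ℝ) ^ u) m ∧ h + p = m) ∧
        (∃ p m : ℕ, p.Prime ∧ p ≤ 8 * X ∧ PrimeOrTwo ((X : ℝ) ^ u) m ∧ h + m = p)))).card : ℝ) ≤
      C * (X : ℝ) ^ (4 * u - 1 + ε) := by
  obtain ⟨δ, C, hδ, hC, h⟩ := main 1 u ε one_pos le_rfl (by linarith) hu2 hε
  have hexp : 0 < 4 * u - 1 + ε := by linarith
  refine ⟨C * 8 ^ (4 * u - 1 + ε), by positivity, fun X hX => ?_⟩
  obtain ⟨V, hV⟩ : ∃ V : ℕ, V = 8 * X := ⟨_, rfl⟩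
  have hVr : (V : ℝ) = 8 * X := by rw [hV]; push_cast; ring
  have h1 := h V (by omega)
  have e : max (1 - 1) (4 * u - 1) + ε = 4 * u - 1 + ε := by
    rw [max_eq_right (by linarith)]
  rw [e] at h1
  have hXr : (1 : ℝ) ≤ X := by exact_mod_cast hX
  have e2 : C * (V : ℝ) ^ (4 * u - 1 + ε) = C * 8 ^ (4 * u - 1 + ε) * (X : ℝ) ^ (4 * u - 1 + ε) := by
    rw [hVr, Real.mul_rpow (by norm_num) (by linarith)]
    ring
  rw [e2] at h1
  refine le_trans ?_ h1
  have hlog : 0 < Real.log (V : ℝ) := Real.log_pos (by linarith)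
  have hwX : (X : ℝ) ^ u ≤ (V : ℝ) ^ u := by
    apply Real.rpow_le_rpow (by linarith) _ (by linarith)
    linarith
  have hmono : ∀ m : ℕ, PrimeOrTwo ((V : ℝ) ^ u) m → PrimeOrTwo ((X : ℝ) ^ u) m := by
    rintro m (hm | ⟨q, r, h1, h2, h3, h4, h5⟩)
    · exact Or.inl hm
    · exact Or.inr ⟨q, r, h1, h2, h3, lt_of_le_of_lt hwX h4, lt_of_le_of_lt hwX h5⟩
  rw [Nat.cast_le]
  apply card_le_card
  intro n hn
  rw [mem_filter, mem_Icc] at hn ⊢
  obtain ⟨⟨hn1, hnX⟩, hev, hno⟩ := hn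
  refine ⟨⟨hn1, by omega⟩, hev, (V : ℝ), by rw [Real.rpow_one], le_rfl, ?_⟩
  by_contra hcon
  rw [not_or, not_lt, not_lt] at hcon
  obtain ⟨hc1, hc2⟩ := hcon
  have hs1 : 1 ≤ sing n := Pool.Agent.Y882.one_le_sgs n
  have hpos : 0 < δ * sing n * ((V : ℝ) / Real.log (V : ℝ) ^ 2) := by
    have : 0 < sing n := by linarith
    have : (0 : ℝ) < (V : ℝ) := by linarith
    positivity
  apply hno
  constructor
  · have hp' : 0 < up V u (V : ℝ) n := Nat.cast_pos.1 (hpos.trans_le hc1)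
    unfold up at hp'
    obtain ⟨p, hp⟩ := card_pos.1 hp'
    rw [mem_filter, mem_Icc] at hp
    obtain ⟨⟨hp1, hp2⟩, hpp, -, -, hr⟩ := hp
    refine ⟨p, p + n, hpp, by omega, hmono _ (two_of V u hu (p + n) ?_ hr), by omega⟩
    have := hpp.two_le
    omega
  · have hp' : 0 < down V u (V : ℝ) n := Nat.cast_pos.1 (hpos.trans_le hc2)
    unfold down at hp'
    obtain ⟨p, hp⟩ := card_pos.1 hp'
    rw [mem_filter, mem_Icc] at hp
    obtain ⟨⟨hp1, hp2⟩, hpp, hp3, -, hr⟩ := hp
    have hpX : 2 * X < p := by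
      have : (2 * X : ℝ) < p := by linarith
      exact_mod_cast this
    have hna : ((p : ℤ) - n).natAbs = p - n := by omega
    rw [hna] at hr
    exact ⟨p, p - n, hpp, by omega, hmono _ (two_of V u hu (p - n) (by omega) hr), by omega⟩

open Classical in
/-- **Even numbers as differences of a prime and an almost prime, with few exceptions.** -/
theorem result :
    (∀ θ u ε : ℝ, 0 < θ → θ ≤ 1 → 0 < u → u < 1 / 2 → 0 < ε → ∃ δ C : ℝ, 0 < δ ∧ 0 < C ∧ ∀ V : ℕ, 1 ≤ V →
      (((Icc 1 V).filter (fun h => Even h ∧ ∃ x : ℝ, (V : ℝ) ^ θ ≤ x ∧ x ≤ V ∧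
        ((up V u x h : ℝ) < δ * sing h * (x / Real.log V ^ 2) ∨
          (down V u x h : ℝ) < δ * sing h * (x / Real.log V ^ 2)))).card : ℝ) ≤
      C * (V : ℝ) ^ (max (1 - θ) (4 * u - θ) + ε)) ∧
    (∀ u ε : ℝ, 1 / 3 ≤ u → u < 1 / 2 → 0 < ε → ∃ C : ℝ, 0 < C ∧ ∀ X : ℕ, 1 ≤ X →
      (((Icc 1 X).filter (fun h => Even h ∧ ¬ ((∃ p m : ℕ, p.Prime ∧ p ≤ 8 * X ∧
          PrimeOrTwo ((X : ℝ) ^ u) m ∧ h + p = m) ∧
        (∃ p m : ℕ, p.Prime ∧ p ≤ 8 * X ∧ PrimeOrTwo ((X : ℝ) ^ u) m ∧ h + m = p)))).card : ℝ) ≤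
      C * (X : ℝ) ^ (4 * u - 1 + ε)) := ⟨main, two⟩

end Pool.Agent.Results.MP_70e905_nt.ShortShiftsFewExceptions
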