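import Pool.Agent.Q84.PP1
import Pool.Agent.Q84.PP2

set_option autoImplicit false

/-!
# The numbers `g, 2 g, …, t g` as gaps between consecutive primes, in all residue classes at once

A number `g` is a recurring gap for the class `a` modulo `q` if for every `η > 0` and arbitrarily large `X` at
least `X ^ (1 - η)` primes `p_n ≤ X`, `p_n ≡ a (mod q)`, are followed by the next prime at the distance `g`.

Let finitely many multipliers `A_j ≥ 1`, moduli `q_j` and classes `a_j` prime to `q_j`, `j < r`, be given; for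
instance (`r = t φ(q)`) all pairs of a multiplier `1, 2, …, t` and a reduced residue class modulo `q`. Call `g`
good if, for ALL `j`, the number `A_j g` is a recurring gap for the class `a_j` modulo `q_j`. Let
`R = 1 + r + r ^ 2 + … + r ^ (2 r)`. There are `M` and `C` such that for EVERY multiple `N` of `M`

* in every sufficiently long window a proportion of at least `1 / R - ε` of the multiples of `N` is good;
* for all but a proportion `ε` of the `k` in every sufficiently long window one of `N k, 2 N k, …, R N k` is good;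
* every set of at least `C` integers contains two elements whose difference times `N` is good.

For `r = 1` the first two parts are the known results on a single class (`1 / 3`; `k`, `2 k` or `3 k`).

Proof: the coloured Maynard-Tao theorem for four classes of linear forms (`Pool.Agent.TH899.UG.fourC`) with exact
patterns; the pairs of positions whose difference is not good are coloured by a `j` which is responsible, and
after Ramsey's theorem for the positions inside the classes the colour depends only on the pair of classes;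
then a graph on `R + 1` vertices with `r` colours has four vertices with one colour. The density follows by the
ladder argument of `Pool.Agent.W59.GB.step`, the statement on multiples by Szemerédi's theorem in the form of
`Pool.Agent.TH709.RGap.ipr`.
-/

namespace Pool.Agent.Results.MP_70e905_nt.SimultaneousGaps

open Finset Filter Pool.Agent.H947R3.GM Pool.Agent.H732R3.BigQ Pool.Agent.W59.GB

/-- `g` is a recurring gap for the class `a` modulo `q` -/
def Rec (q a g : ℕ) : Prop :=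
  ∀ η : ℝ, 0 < η → ∃ᶠ x : ℝ in atTop,
    x ^ (1 - η) ≤ ({n : ℕ | (Nat.nth Nat.Prime n : ℝ) ≤ x ∧ Nat.nth Nat.Prime n ≡ a [MOD q] ∧
      Nat.nth Nat.Prime (n + 1) = Nat.nth Nat.Prime n + g}.ncard : ℝ)

/-- `1 + r + r ^ 2 + … + r ^ (2 r)` -/
def R (r : ℕ) : ℕ := ∑ i ∈ range (2 * r + 1), r ^ i

lemma pure_gap {q a : ℕ} (hq : 0 < q) (ha : a.Coprime q) : ∃ K : ℕ, 1 ≤ K ∧ ∀ c : ℕ, 0 < c →
    (4 * K).factorial ∣ c → Pool.Agent.Q84.PP.Pure {k | c * k ∈ GapB q a} 4 K := by
  classical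
  obtain ⟨K, hK, h⟩ := Pool.Agent.Q84.PP.four_gap hq ha
  refine ⟨K, hK, fun c hc hcK H hH => ?_⟩
  obtain ⟨g, g', i, i', h1, h2, h3⟩ := h (fun g i => c * H g i) (by
    refine ⟨fun x y hxy => hH (Nat.eq_of_mul_eq_mul_left hc hxy), fun p hp _ => ?_⟩
    by_cases hpK : p ≤ 4 * K
    · refine ⟨1, fun g i hd => ?_⟩
      have h1 : (p : ℤ) ∣ ((c * H g i : ℕ) : ℤ) := by
        exact_mod_cast ((Nat.dvd_factorial hp.pos hpK).trans hcK).mul_right _
      have h2 : (p : ℤ) ∣ 1 := (dvd_add_left h1).1 hd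
      have h3 : p ∣ 1 := by exact_mod_cast h2
      exact hp.one_lt.ne' (Nat.dvd_one.1 h3)
    · have : NeZero p := ⟨hp.ne_zero⟩
      obtain ⟨z, -, hz⟩ := exists_mem_notMem_of_card_lt_card
        (s := (univ : Finset (Fin 4 × Fin K)).image
          (fun x => -((c * H x.1 x.2 : ℕ) : ZMod p))) (t := (univ : Finset (ZMod p))) (by
        refine lt_of_le_of_lt card_image_le ?_
        rw [card_univ, card_univ, ZMod.card, Fintype.card_prod, Fintype.card_fin, Fintype.card_fin]
        omega)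
      refine ⟨(z.val : ℤ), fun g i hd => hz ?_⟩
      rw [mem_image]
      refine ⟨(g, i), mem_univ _, ?_⟩
      have h1 : (((z.val : ℤ) + ((c * H g i : ℕ) : ℤ) : ℤ) : ZMod p) = 0 :=
        (ZMod.intCast_zmod_eq_zero_iff_dvd _ p).2 hd
      push_cast at h1 ⊢
      rw [ZMod.natCast_zmod_val] at h1
      linear_combination -h1)
  refine ⟨g, g', i, i', h1, Nat.lt_of_mul_lt_mul_left h2, ?_⟩
  show c * (H g' i' - H g i) ∈ GapB q a
  rw [Nat.mul_sub]
  exact h3

lemma rec_of {q a k g : ℕ} (hg : q * k = g) (h : k ∈ GapB q a) : Rec q a g := by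
  intro η hη
  rw [← hg]
  exact nthB h η hη

/-- **The multiples `A_j g` are gaps between consecutive primes of the class `a_j` modulo `q_j` for all
`j` simultaneously.** -/
theorem result (r : ℕ) (hr : 0 < r) (A q a : Fin r → ℕ) (hA : ∀ j, 0 < A j) (hq : ∀ j, 0 < q j)
    (ha : ∀ j, (a j).Coprime (q j)) :
    ∃ M C : ℕ, 0 < M ∧ ∀ N : ℕ, 0 < N → M ∣ N →
      (∀ ε : ℝ, 0 < ε → ∃ L : ℕ, ∀ l : ℕ, L ≤ l → ∀ u : ℕ,
        (1 / (R r : ℝ) - ε) * (l : ℝ) ≤ ({k : ℕ | u < k ∧ k ≤ u + l ∧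
          ∀ j, Rec (q j) (a j) (A j * (N * k))}.ncard : ℝ)) ∧
      (∀ ε : ℝ, 0 < ε → ∃ L : ℕ, ∀ l : ℕ, L ≤ l → ∀ u : ℕ,
        ({k : ℕ | u < k ∧ k ≤ u + l ∧ ¬ ∃ d, 1 ≤ d ∧ d ≤ R r ∧
          ∀ j, Rec (q j) (a j) (A j * (N * (d * k)))}.ncard : ℝ) ≤ ε * l) ∧
      ∀ W : Finset ℕ, C ≤ W.card → ∃ w ∈ W, ∃ w' ∈ W, w < w' ∧
        ∀ j, Rec (q j) (a j) (A j * (N * (w' - w))) := by
  classical
  choose K hK hp using fun j => pure_gap (hq j) (ha j)
  obtain ⟨K₀, hK₀⟩ : ∃ K₀ : ℕ, ∀ j, K j ≤ K₀ := ⟨univ.sup K, fun j => le_sup (mem_univ j)⟩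
  obtain ⟨K', hK', hint⟩ := Pool.Agent.Q84.PP.inter r K₀ hr
  refine ⟨(∏ j, q j) * (4 * K₀).factorial, (Pool.Agent.Q84.PP.R r + 1) * K',
    Nat.mul_pos (prod_pos fun j _ => hq j) (Nat.factorial_pos _), fun N hN hd => ?_⟩
  -- the coefficients
  have hc : ∀ j, ∃ c : ℕ, 0 < c ∧ (4 * K j).factorial ∣ c ∧ q j * c = A j * N := by
    intro j
    obtain ⟨t, rfl⟩ := hd
    obtain ⟨s, hs⟩ : q j ∣ ∏ j, q j := dvd_prod_of_mem q (mem_univ j)
    have ht : 0 < t := Nat.pos_of_ne_zero (by rintro rfl; simp at hN)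
    have hs0 : 0 < s := Nat.pos_of_ne_zero (by
      rintro rfl
      rw [mul_zero] at hs
      have := prod_pos (s := (univ : Finset (Fin r))) (fun j _ => hq j)
      omega)
    refine ⟨A j * (s * (4 * K₀).factorial * t), Nat.mul_pos (hA j)
      (Nat.mul_pos (Nat.mul_pos hs0 (Nat.factorial_pos _)) ht), ?_, ?_⟩
    · have h1 : (4 * K j).factorial ∣ (4 * K₀).factorial :=
        Nat.factorial_dvd_factorial (Nat.mul_le_mul_left 4 (hK₀ j))
      exact ((h1.mul_left s).mul_right t).mul_left _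
    · rw [hs]
      ring
  choose c hc0 hcK hcq using hc
  have hD := hint (fun j => {k | c j * k ∈ GapB (q j) (a j)})
    (fun j => (hp j (c j) (hc0 j) (hcK j)).mono (hK₀ j))
  have hRec : ∀ k : ℕ, (∀ j, k ∈ {k | c j * k ∈ GapB (q j) (a j)}) →
      ∀ j, Rec (q j) (a j) (A j * (N * k)) := by
    intro k hk j
    refine rec_of ?_ (hk j)
    rw [← mul_assoc, hcq, mul_assoc]
  refine ⟨fun ε hε => ?_, fun ε hε => ?_, fun W hW => ?_⟩
  · obtain ⟨L, hL⟩ := Pool.Agent.Q84.PP.density (Pool.Agent.Q84.PP.one_le_R r) hD ε hε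
    refine ⟨L, fun l hl u => (hL l hl u).trans ?_⟩
    rw [Nat.cast_le]
    refine Set.ncard_le_ncard ?_ ((Set.finite_Ioc u (u + l)).subset fun k hk => ⟨hk.1, hk.2.1⟩)
    rintro k ⟨h1, h2, h3⟩
    exact ⟨h1, h2, hRec k h3⟩
  · obtain ⟨L, hL⟩ := Pool.Agent.Q84.PP.multiples hD ε hε
    refine ⟨L, fun l hl u => le_trans ?_ (hL l hl u)⟩
    rw [Nat.cast_le]
    refine Set.ncard_le_ncard ?_ ((Set.finite_Ioc u (u + l)).subset fun k hk => ⟨hk.1, hk.2.1⟩)
    rintro k ⟨h1, h2, h3⟩
    refine ⟨h1, h2, ?_⟩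
    rintro ⟨d, hd1, hd2, hd3⟩
    exact h3 ⟨d, hd1, hd2, hRec _ hd3⟩
  · obtain ⟨w, hw, w', hw', h1, h2⟩ := Pool.Agent.Q84.PP.finite_sets hD W hW
    exact ⟨w, hw, w', hw', h1, hRec _ h2⟩

end Pool.Agent.Results.MP_70e905_nt.SimultaneousGaps
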