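import Pool.Agent.Q84.PG2
import Pool.Agent.Results.MP_70e905_nt.ConsecutiveHalf
import Pool.Agent.Results.MP_70e905_nt.MoreThanHalf

set_option autoImplicit false

/-!
# Linear equations in differences of primes: solutions near arbitrary prescribed values

A number `g` is a recurring gap (for the class `a` modulo `q`) if for every `η > 0` and arbitrarily large
`X` at least `X ^ (1 - η)` primes `p_n ≤ X`, `p_n ≡ a (mod q)`, are followed by the next prime at the
distance `g`; it is a recurring difference with at most `J` steps if the same is true of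
`p_(n + j) - p_n = g` for some `1 ≤ j ≤ J`.

(1) GAPS. Let `q` be squarefree, `a` coprime to `q` and `c_1, ..., c_r`, `r ≥ 3`, nonzero integers. There
is `M` such that for EVERY multiple `N` of `M` there is `T` such that every solution of
`c_1 x_1 + ... + c_r x_r = n` in natural numbers `x_i ≥ T`, with `n` a multiple of `N`, lies within
distance `T` of a solution in recurring gaps between CONSECUTIVE primes. For instance every large
multiple of `N` is a sum of three gaps between consecutive primes, all three of them within distance `T`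
of a third of it; and near every triple `(x, y, x + y)` there is a triple `(g, g', g + g')` of gaps.

(2) DIFFERENCES. With an absolute `J` the same holds for all `r ≥ 2` and recurring differences with at
most `J` steps. For instance every large multiple of `N` is a sum of two such differences.

Proof for `r = 3`: half of the multiples of a highly divisible number, up to one per cent, in every long
window are recurring gaps (`ConsecutiveHalf`). After scaling the equation is `± k_1 ± k_2 ± k_3 = 2 n'`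
with `k_i` in sets `G_i` which have almost one half of every long window and also of the even numbers
in it. If there is no solution near `(x_1, x_2, x_3)`, then the pieces `A_1`, `A_2` of `G_1`, `G_2` near
`x_1`, `x_2` have a sum set of density about one half, so the differences between elements of one of
them are almost periods of the other one; hence the sets of the small differences of both are the same
and are closed under addition, and this set must consist of the even numbers. So `A_1` and `A_2`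
contain almost all even numbers of their windows and nothing else, and there is a solution after all.
-/

namespace Pool.Agent.Results.MP_70e905_nt.TernaryGaps

open Filter Finset

/-- for every `η > 0` and arbitrarily large `X` there are at least `X ^ (1 - η)` primes `p_n ≤ X`,
`p_n ≡ a (mod q)`, with `p_(n+1) = p_n + g` -/
def RecGap (q a g : ℕ) : Prop :=
  ∀ η : ℝ, 0 < η → ∃ᶠ X : ℝ in atTop,
    X ^ (1 - η) ≤ ({n : ℕ | (Nat.nth Nat.Prime n : ℝ) ≤ X ∧ Nat.nth Nat.Prime n ≡ a [MOD q] ∧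
      Nat.nth Nat.Prime (n + 1) = Nat.nth Nat.Prime n + g}.ncard : ℝ)

/-- for some `1 ≤ j ≤ J`, for every `η > 0` and arbitrarily large `X` there are at least `X ^ (1 - η)`
primes `p_n ≤ X`, `p_n ≡ a (mod q)`, with `p_(n+j) = p_n + g` -/
def RecDiff (q a J g : ℕ) : Prop :=
  ∃ j : ℕ, 1 ≤ j ∧ j ≤ J ∧ ∀ η : ℝ, 0 < η → ∃ᶠ X : ℝ in atTop,
    X ^ (1 - η) ≤ ({n : ℕ | (Nat.nth Nat.Prime n : ℝ) ≤ X ∧ Nat.nth Nat.Prime n ≡ a [MOD q] ∧
      Nat.nth Nat.Prime (n + j) = Nat.nth Nat.Prime n + g}.ncard : ℝ)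

open Pool.Agent.Q84.PG

lemma card_eq (P : ℕ → Prop) (u l : ℕ) :
    ({k : ℕ | u < k ∧ k ≤ u + l ∧ P k}.ncard) = (nwin {k | P k} u l).card := by
  rw [← Set.ncard_coe_finset]
  congr 1
  ext k
  simp only [Set.mem_setOf_eq, Finset.mem_coe, mem_nwin]
  tauto

lemma half (q a : ℕ) (hsq : Squarefree q) (ha : Nat.Coprime a q) :
    ∃ M : ℕ, 0 < M ∧ Half {g | RecGap q a g} M := by
  obtain ⟨M, hM, h⟩ := ConsecutiveHalf.result q a hsq ha (1 / 100) (by norm_num)
  refine ⟨M, hM, fun N hN hd => ?_⟩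
  obtain ⟨L, hL⟩ := h N hN hd
  refine ⟨L, fun l hl u => ?_⟩
  have h1 := hL l hl u
  rw [card_eq (fun k => ∀ η : ℝ, 0 < η → ∃ᶠ x : ℝ in atTop,
      x ^ (1 - η) ≤ ({n : ℕ | (Nat.nth Nat.Prime n : ℝ) ≤ x ∧
        Nat.nth Nat.Prime n ≡ a [MOD q] ∧
        Nat.nth Nat.Prime (n + 1) = Nat.nth Nat.Prime n + N * k}.ncard : ℝ))] at h1
  have h3 : (1 / 2 - 1 / 100 : ℝ) * l ≤
      ((nwin {k | N * k ∈ {g | RecGap q a g}} u l).card : ℝ) := h1
  have h4 : ((49 * l : ℕ) : ℝ) ≤
      ((100 * (nwin {k | N * k ∈ {g | RecGap q a g}} u l).card : ℕ) : ℝ) := by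
    push_cast
    linarith
  exact_mod_cast h4

/-- **Linear equations in differences of primes, near prescribed values.** -/
theorem result :
    (∀ q a : ℕ, Squarefree q → Nat.Coprime a q → ∀ r : ℕ, 3 ≤ r → ∀ c : Fin r → ℤ,
      (∀ i, c i ≠ 0) → ∃ M : ℕ, 0 < M ∧ ∀ N : ℕ, 0 < N → M ∣ N → ∃ T : ℕ,
        ∀ x : Fin r → ℕ, (∀ i, T ≤ x i) → (N : ℤ) ∣ ∑ i, c i * (x i : ℤ) →
        ∃ g : Fin r → ℕ, (∀ i, RecGap q a (g i) ∧ |(g i : ℤ) - x i| ≤ T) ∧
          ∑ i, c i * (g i : ℤ) = ∑ i, c i * (x i : ℤ)) ∧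
    (∃ J : ℕ, ∀ q a : ℕ, Squarefree q → Nat.Coprime a q → ∀ r : ℕ, 2 ≤ r → ∀ c : Fin r → ℤ,
      (∀ i, c i ≠ 0) → ∃ M : ℕ, 0 < M ∧ ∀ N : ℕ, 0 < N → M ∣ N → ∃ T : ℕ,
        ∀ x : Fin r → ℕ, (∀ i, T ≤ x i) → (N : ℤ) ∣ ∑ i, c i * (x i : ℤ) →
        ∃ g : Fin r → ℕ, (∀ i, RecDiff q a J (g i) ∧ |(g i : ℤ) - x i| ≤ T) ∧
          ∑ i, c i * (g i : ℤ) = ∑ i, c i * (x i : ℤ)) := by
  constructor
  · intro q a hsq ha r hr c hc
    obtain ⟨M0, hM0, h0⟩ := half q a hsq ha
    obtain ⟨M, hM, h⟩ := solv_half hM0 h0 r hr c hc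
    refine ⟨M, hM, fun N hN hd => ?_⟩
    obtain ⟨T, hT⟩ := h N hN hd 0
    exact ⟨T, fun x hx hdvd => hT x hx _ hdvd (by simp)⟩
  · obtain ⟨δ, hδ, J, hJ⟩ := MoreThanHalf.result
    refine ⟨J, fun q a hsq ha r hr c hc => ?_⟩
    obtain ⟨M0, hM0, h0⟩ := hJ q a (Nat.pos_of_ne_zero hsq.ne_zero) hsq ha
    have hmore : More {g | RecDiff q a J g} M0 δ := by
      intro N hN hd
      obtain ⟨L, hL⟩ := h0 N hN hd
      refine ⟨L, fun l hl u => ?_⟩
      have h1 := hL l hl u
      rw [card_eq (fun k => ∃ j : ℕ, 1 ≤ j ∧ j ≤ J ∧ ∀ η : ℝ, 0 < η → ∃ᶠ x : ℝ in atTop,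
          x ^ (1 - η) ≤ ({n : ℕ | (Nat.nth Nat.Prime n : ℝ) ≤ x ∧
            Nat.nth Nat.Prime n ≡ a [MOD q] ∧
            Nat.nth Nat.Prime (n + j) = Nat.nth Nat.Prime n + N * k}.ncard : ℝ))] at h1
      exact h1
    obtain ⟨M, hM, h⟩ := solv_more hM0 hδ hmore r hr c hc
    refine ⟨M, hM, fun N hN hd => ?_⟩
    obtain ⟨T, hT⟩ := h N hN hd 0
    exact ⟨T, fun x hx hdvd => hT x hx _ hdvd (by simp)⟩

end Pool.Agent.Results.MP_70e905_nt.TernaryGaps
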