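import Mathlib
import Pool.Agent.Q178.TG.Fin2
import Pool.Agent.Q178.TG.Nt

/-!
# Every large even number is a sum of three prime gaps

A prime gap is a difference `p_(l+1) - p_l` of two consecutive primes; it is recurring if, for every
`η > 0` and arbitrarily large `x`, it is the gap after at least `x ^ (1 - η)` primes `p_l ≤ x`.

Every sufficiently large even number `n` is a sum of three prime gaps, two of which are recurring
multiples of six and the third is recurring or at most `18`, in at least `c n` ways. Every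
sufficiently large multiple `n` of twelve is a sum of three recurring prime gaps in at least `c n ^ 2`
ways.

Outline. Let `V` be the set of the `k` such that `6 k` is a recurring gap. If `n` has few
representations then all but few pairs `a > b` of members of `V` below `n / 12` have `a - b ∈ V`: a
dense set of bad pairs contains two blocks `X`, `Y` of a complete bipartite graph (box lemma), and the
four blocks `6 X`, `6 Y`, `n - 6 X'`, `n - 6 Y'` contradict the coloured Maynard-Tao theorem with four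
classes of the starting files. A syndetic set `V` that is closed under almost all differences is, up
to few elements, the set of the multiples of a number `d` in an interval of the length `c n`: the
translations `t` under which `V` is almost invariant satisfy a dichotomy (invariance up to an error
`8 θ n` implies invariance up to `4 θ n`), so they are closed under differences and are the multiples
of `d`. By the theorem on four classes, `d ≤ 3`. Then `n = g + 6 x + 6 y` with a `g ≤ 18` in the right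
class modulo `6 d`. For multiples of twelve only the case `d = 3` needs a further argument: the
recurring gaps that are not multiples of three would be in at most two classes modulo nine, and there
are four classes of shifts that avoid them.
-/

set_option autoImplicit false

namespace Pool.Agent.Results.MP_70e905_nt.ThreeGaps

open Finset Filter

/-- `g` is a difference of two consecutive primes. -/
def PrimeGap (g : ℕ) : Prop := ∃ l : ℕ, Nat.nth Nat.Prime (l + 1) = Nat.nth Nat.Prime l + g

/-- For every `η > 0` and arbitrarily large `x` at least `x ^ (1 - η)` primes `p_l ≤ x` are followed by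
the next prime at the distance `g`. -/
def Recurring (g : ℕ) : Prop := ∀ η : ℝ, 0 < η → ∃ᶠ x : ℝ in atTop,
  x ^ (1 - η) ≤ ({l : ℕ | (Nat.nth Nat.Prime l : ℝ) ≤ x ∧
    Nat.nth Nat.Prime (l + 1) = Nat.nth Nat.Prime l + g}.ncard : ℝ)

theorem Recurring.gap {g : ℕ} (h : Recurring g) : PrimeGap g := by
  obtain ⟨x, h1, h2⟩ := ((h (1 / 2) (by norm_num)).and_eventually (eventually_ge_atTop (1 : ℝ))).exists
  by_contra hcon
  have h3 : {l : ℕ | (Nat.nth Nat.Prime l : ℝ) ≤ x ∧
    Nat.nth Nat.Prime (l + 1) = Nat.nth Nat.Prime l + g} = ∅ := by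
    ext l
    constructor
    · rintro ⟨-, h4⟩
      exact absurd ⟨l, h4⟩ hcon
    · intro h4
      exact absurd h4 (Set.notMem_empty _)
  rw [h3, Set.ncard_empty, Nat.cast_zero] at h1
  have h4 : 0 < x ^ (1 - (1 / 2) : ℝ) := Real.rpow_pos_of_pos (by linarith) _
  linarith

theorem rec_of_W {k : ℕ} (h : Pool.Agent.Q178.TG.W k) : Recurring (2 * k) := by
  intro η hη
  refine (Pool.Agent.W59.GB.nthB h η hη).mono fun x hx => hx.trans ?_
  have hfin : {l : ℕ | (Nat.nth Nat.Prime l : ℝ) ≤ x ∧
      Nat.nth Nat.Prime (l + 1) = Nat.nth Nat.Prime l + 2 * k}.Finite := by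
    apply (Set.finite_Iic ⌊x⌋₊).subset
    rintro n ⟨h, -⟩
    rw [Set.mem_Iic]
    apply Nat.le_floor
    have h1 := Nat.add_two_le_nth_prime n
    have h2 : (n : ℝ) ≤ Nat.nth Nat.Prime n := by exact_mod_cast (by omega : n ≤ Nat.nth Nat.Prime n)
    linarith
  rw [Nat.cast_le]
  exact Set.ncard_le_ncard (fun l hl => ⟨hl.1, hl.2.2⟩) hfin

theorem gap_of (p g : ℕ) (hp : p.Prime) (hq : (p + g).Prime) (hg : 0 < g)
    (h : ∀ m, p < m → m < p + g → ¬ m.Prime) : PrimeGap g := by
  refine ⟨Nat.count Nat.Prime p, ?_⟩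
  rw [Nat.nth_count hp]
  have h1 : Nat.count Nat.Prime p < Nat.count Nat.Prime (p + g) := Nat.count_strict_mono hp (by omega)
  have h2 : Nat.nth Nat.Prime (Nat.count Nat.Prime (p + g)) = p + g := Nat.nth_count hq
  have hinf := Nat.infinite_setOfPred_prime
  by_contra hne
  have h3 : Nat.count Nat.Prime p + 1 < Nat.count Nat.Prime (p + g) := by
    rcases Nat.lt_or_ge (Nat.count Nat.Prime p + 1) (Nat.count Nat.Prime (p + g)) with h4 | h4
    · exact h4
    · exfalso
      have h5 : Nat.count Nat.Prime (p + g) = Nat.count Nat.Prime p + 1 := by omega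
      rw [h5] at h2
      exact hne h2
  have h4 := Nat.nth_strictMono hinf h3
  have h5 := Nat.nth_strictMono hinf (Nat.lt_succ_self (Nat.count Nat.Prime p))
  rw [h2] at h4
  rw [Nat.nth_count hp] at h5
  exact h _ h5 h4 (Nat.prime_nth_prime _)

theorem small_gaps (g : ℕ) (h1 : 1 ≤ g) (h9 : g ≤ 9) : PrimeGap (2 * g) := by
  interval_cases g
  · exact gap_of 3 2 (by norm_num) (by norm_num) (by norm_num) (by
      intro m h2 h3; interval_cases m <;> norm_num)
  · exact gap_of 7 4 (by norm_num) (by norm_num) (by norm_num) (by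
      intro m h2 h3; interval_cases m <;> norm_num)
  · exact gap_of 23 6 (by norm_num) (by norm_num) (by norm_num) (by
      intro m h2 h3; interval_cases m <;> norm_num)
  · exact gap_of 89 8 (by norm_num) (by norm_num) (by norm_num) (by
      intro m h2 h3; interval_cases m <;> norm_num)
  · exact gap_of 139 10 (by norm_num) (by norm_num) (by norm_num) (by
      intro m h2 h3; interval_cases m <;> norm_num)
  · exact gap_of 199 12 (by norm_num) (by norm_num) (by norm_num) (by
      intro m h2 h3; interval_cases m <;> norm_num)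
  · exact gap_of 113 14 (by norm_num) (by norm_num) (by norm_num) (by
      intro m h2 h3; interval_cases m <;> norm_num)
  · exact gap_of 1831 16 (by norm_num) (by norm_num) (by norm_num) (by
      intro m h2 h3; interval_cases m <;> norm_num)
  · exact gap_of 523 18 (by norm_num) (by norm_num) (by norm_num) (by
      intro m h2 h3; interval_cases m <;> norm_num)

/-- **Main theorem.** -/
theorem result :
    (∃ c : ℝ, 0 < c ∧ ∃ n₀ : ℕ, ∀ n : ℕ, n₀ ≤ n → Even n →
      c * (n : ℝ) ≤ ({z : ℕ × ℕ | z.1 + z.2 < n ∧ 6 ∣ z.1 ∧ 6 ∣ z.2 ∧ Recurring z.1 ∧ Recurring z.2 ∧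
        PrimeGap (n - z.1 - z.2) ∧ (Recurring (n - z.1 - z.2) ∨ n - z.1 - z.2 ≤ 18)}.ncard : ℝ)) ∧
    (∃ c : ℝ, 0 < c ∧ ∃ n₀ : ℕ, ∀ n : ℕ, n₀ ≤ n → 12 ∣ n →
      c * (n : ℝ) ^ 2 ≤ ({z : ℕ × ℕ | z.1 + z.2 < n ∧ Recurring z.1 ∧ Recurring z.2 ∧
        Recurring (n - z.1 - z.2)}.ncard : ℝ)) := by
  classical
  obtain ⟨R, hR, h4⟩ := Pool.Agent.Q178.TG.four_class
  have h4' : Pool.Agent.Q178.TG.H4 Pool.Agent.Q178.TG.W R := h4
  have hS : Pool.Agent.Q178.TG.HS Pool.Agent.Q178.TG.W := Pool.Agent.Q178.TG.syndW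
  have hfin : ∀ (n : ℕ) (P : ℕ × ℕ → Prop), {z : ℕ × ℕ | z.1 + z.2 < n ∧ P z}.Finite := by
    intro n P
    refine ((Finset.range n ×ˢ Finset.range n).finite_toSet).subset ?_
    rintro z ⟨h1, -⟩
    exact mem_coe.2 (mem_product.2 ⟨mem_range.2 (by omega), mem_range.2 (by omega)⟩)
  constructor
  · obtain ⟨c, hc, ν0, h⟩ := Pool.Agent.Q178.TG.part1 _ R hR h4' hS
    refine ⟨c / 4, by positivity, 2 * (ν0 + 20), fun n hn he => ?_⟩
    obtain ⟨ν, hν⟩ := he
    have hν2 : n = 2 * ν := by omega
    subst hν2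
    have hν1 : (1 : ℝ) ≤ ν := by
      have : 1 ≤ ν := by omega
      exact_mod_cast this
    rcases h ν (by omega) with h1 | ⟨d, hd1, hd3, hd⟩
    · have h2 : ((Pool.Agent.Q178.TG.T3 Pool.Agent.Q178.TG.W ν).image
          (fun z => (2 * z.1, 2 * z.2))).card ≤
          {z : ℕ × ℕ | z.1 + z.2 < 2 * ν ∧ 6 ∣ z.1 ∧ 6 ∣ z.2 ∧ Recurring z.1 ∧ Recurring z.2 ∧
            PrimeGap (2 * ν - z.1 - z.2) ∧ (Recurring (2 * ν - z.1 - z.2) ∨
              2 * ν - z.1 - z.2 ≤ 18)}.ncard := by
        rw [← Set.ncard_coe_finset]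
        refine Set.ncard_le_ncard ?_ (hfin _ _)
        intro w hw
        obtain ⟨z, hz, rfl⟩ := mem_image.1 (mem_coe.1 hw)
        obtain ⟨k1, k2, k3, k4, k5, k6, k7⟩ := mem_filter.1 hz
        have e : 2 * ν - 2 * z.1 - 2 * z.2 = 2 * (ν - z.1 - z.2) := by omega
        have hr : Recurring (2 * ν - 2 * z.1 - 2 * z.2) := by rw [e]; exact rec_of_W k7
        exact ⟨by show 2 * z.1 + 2 * z.2 < 2 * ν; omega, by show 6 ∣ 2 * z.1; omega,
          by show 6 ∣ 2 * z.2; omega, rec_of_W k2, rec_of_W k3, hr.gap, Or.inl hr⟩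
      rw [card_image_of_injective _ (by
        intro z z' hzz
        rw [Prod.mk.injEq] at hzz
        exact Prod.ext (by omega) (by omega))] at h2
      have h3 : c / 4 * ((2 * ν : ℕ) : ℝ) ≤ c * (ν : ℝ) ^ 2 := by
        push_cast
        nlinarith [mul_pos hc (lt_of_lt_of_le one_pos hν1)]
      have h5 : ((Pool.Agent.Q178.TG.T3 Pool.Agent.Q178.TG.W ν).card : ℝ) ≤ _ := Nat.cast_le.2 h2
      exact (h3.trans h1).trans h5
    · -- the small gap
      obtain ⟨g, hg1, hg2, hg3⟩ : ∃ g, 1 ≤ g ∧ g ≤ 9 ∧ 3 * d ∣ ν - g := by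
        interval_cases d
        · have h1 := Nat.mod_lt ν (by norm_num : 0 < 3)
          by_cases h0 : ν % 3 = 0
          · exact ⟨3, by norm_num, by norm_num, by omega⟩
          · exact ⟨ν % 3, by omega, by omega, by omega⟩
        · have h1 := Nat.mod_lt ν (by norm_num : 0 < 6)
          by_cases h0 : ν % 6 = 0
          · exact ⟨6, by norm_num, by norm_num, by omega⟩
          · exact ⟨ν % 6, by omega, by omega, by omega⟩
        · have h1 := Nat.mod_lt ν (by norm_num : 0 < 9)
          by_cases h0 : ν % 9 = 0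
          · exact ⟨9, by norm_num, by norm_num, by omega⟩
          · exact ⟨ν % 9, by omega, by omega, by omega⟩
      have h1 := hd g hg2 hg3
      have h2 : ((Pool.Agent.Q178.TG.T2 Pool.Agent.Q178.TG.W ν g).image
          (fun x => (2 * x, 2 * (ν - g - x)))).card ≤
          {z : ℕ × ℕ | z.1 + z.2 < 2 * ν ∧ 6 ∣ z.1 ∧ 6 ∣ z.2 ∧ Recurring z.1 ∧ Recurring z.2 ∧
            PrimeGap (2 * ν - z.1 - z.2) ∧ (Recurring (2 * ν - z.1 - z.2) ∨
              2 * ν - z.1 - z.2 ≤ 18)}.ncard := by
        rw [← Set.ncard_coe_finset]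
        refine Set.ncard_le_ncard ?_ (hfin _ _)
        intro w hw
        obtain ⟨x, hx, rfl⟩ := mem_image.1 (mem_coe.1 hw)
        obtain ⟨k1, k2, k3, k4, k5, k6⟩ := mem_filter.1 hx
        have e : 2 * ν - 2 * x - 2 * (ν - g - x) = 2 * g := by omega
        refine ⟨by show 2 * x + 2 * (ν - g - x) < 2 * ν; omega, by show 6 ∣ 2 * x; omega,
          by show 6 ∣ 2 * (ν - g - x); omega, rec_of_W k2, rec_of_W k6, ?_, Or.inr ?_⟩
        · show PrimeGap (2 * ν - 2 * x - 2 * (ν - g - x))
          rw [e]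
          exact small_gaps g hg1 hg2
        · show 2 * ν - 2 * x - 2 * (ν - g - x) ≤ 18
          omega
      rw [card_image_of_injective _ (by
        intro z z' hzz
        rw [Prod.mk.injEq] at hzz
        omega)] at h2
      have h3 : c / 4 * ((2 * ν : ℕ) : ℝ) ≤ c * (ν : ℝ) := by
        push_cast
        nlinarith
      have h5 : ((Pool.Agent.Q178.TG.T2 Pool.Agent.Q178.TG.W ν g).card : ℝ) ≤ _ := Nat.cast_le.2 h2
      exact (h3.trans h1).trans h5
  · obtain ⟨c, hc, ν0, h⟩ := Pool.Agent.Q178.TG.part2 _ R hR h4' hS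
    refine ⟨c / 4, by positivity, 2 * ν0, fun n hn he => ?_⟩
    obtain ⟨κ, hκ⟩ := he
    obtain ⟨ν, hν⟩ : ∃ ν, ν = 6 * κ := ⟨_, rfl⟩
    have hν2 : n = 2 * ν := by omega
    subst hν2
    have h1 := h ν (by omega) ⟨κ, hν⟩
    have h2 : ((Pool.Agent.Q178.TG.All3 Pool.Agent.Q178.TG.W ν).image
        (fun z => (2 * z.1, 2 * z.2))).card ≤
        {z : ℕ × ℕ | z.1 + z.2 < 2 * ν ∧ Recurring z.1 ∧ Recurring z.2 ∧
          Recurring (2 * ν - z.1 - z.2)}.ncard := by
      rw [← Set.ncard_coe_finset]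
      refine Set.ncard_le_ncard ?_ (hfin _ _)
      intro w hw
      obtain ⟨z, hz, rfl⟩ := mem_image.1 (mem_coe.1 hw)
      obtain ⟨k1, k2, k3, k4, k5⟩ := mem_filter.1 hz
      have e : 2 * ν - 2 * z.1 - 2 * z.2 = 2 * (ν - z.1 - z.2) := by omega
      refine ⟨by show 2 * z.1 + 2 * z.2 < 2 * ν; omega, rec_of_W k2, rec_of_W k3, ?_⟩
      show Recurring (2 * ν - 2 * z.1 - 2 * z.2)
      rw [e]
      exact rec_of_W k5
    rw [card_image_of_injective _ (by
      intro z z' hzz
      rw [Prod.mk.injEq] at hzz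
      exact Prod.ext (by omega) (by omega))] at h2
    have h3 : c / 4 * ((2 * ν : ℕ) : ℝ) ^ 2 ≤ c * (ν : ℝ) ^ 2 := by
      push_cast
      nlinarith [mul_nonneg hc.le (sq_nonneg (ν : ℝ))]
    have h5 : ((Pool.Agent.Q178.TG.All3 Pool.Agent.Q178.TG.W ν).card : ℝ) ≤ _ := Nat.cast_le.2 h2
    exact (h3.trans h1).trans h5

end Pool.Agent.Results.MP_70e905_nt.ThreeGaps
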